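import Pool.Agent.Helper928.NucCert.Sound
set_option autoImplicit false

/-! Certificates: two-sided multiples of the skew-symmetry relations. -/

namespace Pool.Agent.Helper928.NucCert
open Pool.Agent.Helper928.Nuc.Tens Pool.Agent.Helper928.Nuc.NFun

/-- a relation `skew a b`, followed by the polynomial `v` -/
structure Item where
  a : Tr
  b : Tr
  v : Tri

/-- a sum of relations, indexed by the preceding word -/
inductive Cert
  | nil : Cert
  | node : List Item → Cert → Cert → Cert → Cert → Cert

/-- the polynomial of a list of items -/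
noncomputable def items (l : List Item) : Tri :=
  List.rec (motive := fun _ => Tri) Tri.nil (fun i _ ih => Tri.add (Tri.mul i.v (skew i.a i.b)) ih) l

theorem items_cons (i : Item) (l : List Item) : items (i :: l) = Tri.add (Tri.mul i.v (skew i.a i.b)) (items l) := rfl

/-- the polynomial of a certificate -/
noncomputable def total (c : Cert) : Tri :=
  Cert.rec (motive := fun _ => Tri) Tri.nil
    (fun l _ _ _ _ iha ihb ihc ihd => Tri.add (items l) (Tri.node (Int.ofNat 0) iha ihb ihc ihd)) c

theorem total_node (l : List Item) (a b c d : Cert) :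
    total (.node l a b c d) = Tri.add (items l) (Tri.node (Int.ofNat 0) (total a) (total b) (total c) (total d)) := rfl

variable {R : Type} [NonUnitalNonAssocRing R] {P : ℕ → AddSubgroup R} {x z : R}
variable (hP : SuperAlt R P) (hx : x ∈ P 1) (hz : z ∈ P 1)
include hP hx hz

theorem items_sound (l : List Item) (f : ℕ → R → R) (hf : Addi f) (e : ℕ) (m : R) (hm : m ∈ P (e % 2)) :
    ev x z f (items l) e m = 0 := by
  induction l with
  | nil => rfl
  | cons i l ih =>
    rw [items_cons, ev_add, ih, ev_mul,
      (skew_sound hP hx hz i.a i.b).eval _ (ev_addi x z hf i.v) e m hm, add_zero]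
    exact (ev_addi x z hf i.v).zero _

theorem total_sound (c : Cert) (f : ℕ → R → R) (hf : Addi f) :
    ∀ (e : ℕ) (m : R), m ∈ P (e % 2) → ev x z f (total c) e m = 0 := by
  induction c with
  | nil => intro e m _; rfl
  | node l a b c d iha ihb ihc ihd =>
    intro e m hm
    rw [total_node, ev_add, items_sound hP hx hz l f hf e m hm, ev,
      iha _ _ (mul_mem' hP hm hx), ihc _ _ (mul_mem' hP hm hz)]
    have h1 : Lm x e m ∈ P ((e + 1) % 2) := by
      rw [add_comm]
      exact AddSubgroup.zsmul_mem _ (mul_mem' hP (i := 1) hx hm) _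
    have h2 : Lm z e m ∈ P ((e + 1) % 2) := by
      rw [add_comm]
      exact AddSubgroup.zsmul_mem _ (mul_mem' hP (i := 1) hz hm) _
    rw [ihb _ _ h1, ihd _ _ h2]
    simp

/-- the general certificate theorem -/
theorem cert_sound (c : Cert) (t : Tri) (D : ℤ) (d : ℕ) (g : ℕ → R → R) (ht : Op P x z t d g)
    (h : Tri.isZ (Tri.add (Tri.smul D t) (total c)) = true) (e : ℕ) (m : R) (hm : m ∈ P (e % 2)) :
    D • g e m = 0 := by
  have hf : Addi (fun (_ : ℕ) (m : R) => m) := fun _ _ _ => rfl
  have h1 := ev_isZ x z (fun _ m => m) _ h e m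
  rw [ev_add, total_sound hP hx hz c _ hf e m hm, add_zero, ev_smul, ht.eval _ hf e m hm] at h1
  exact h1

end Pool.Agent.Helper928.NucCert
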