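import Pool.Agent.Helper928.NucCert.Data
set_option autoImplicit false

/-! The kernel check of the certificate. -/

namespace Pool.Agent.Helper928.NucCert

theorem check : Tri.isZ (Tri.add (Tri.smul (Int.ofNat 373248) (Tri.mul Zz W6)) (total cert)) = true := by
  decide +kernel

end Pool.Agent.Helper928.NucCert
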