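import Pool.Agent.Helper928.NucCert.Word
set_option autoImplicit false

/-! Soundness of the operator words in super-alternative rings. -/

namespace Pool.Agent.Helper928.NucCert
open Pool.Agent.Helper928.Nuc.Tens Pool.Agent.Helper928.Nuc.NFun
open Tri

variable {R : Type} [NonUnitalNonAssocRing R]

/-- `s` represents the operator family `g` of degree `d` on homogeneous elements -/
structure Op (P : ℕ → AddSubgroup R) (x z : R) (s : Tri) (d : ℕ) (g : ℕ → R → R) : Prop where
  mem : ∀ e m, m ∈ P (e % 2) → g e m ∈ P ((e + d) % 2)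
  eval : ∀ (f : ℕ → R → R), Addi f → ∀ e m, m ∈ P (e % 2) → ev x z f s e m = f (e + d) (g e m)

variable {P : ℕ → AddSubgroup R} {x z : R}

theorem Op.add {s t : Tri} {d : ℕ} {g h : ℕ → R → R} (hs : Op P x z s d g) (ht : Op P x z t d h) :
    Op P x z (Tri.add s t) d (fun e m => g e m + h e m) where
  mem e m hm := AddSubgroup.add_mem _ (hs.mem e m hm) (ht.mem e m hm)
  eval f hf e m hm := by rw [ev_add, hs.eval f hf e m hm, ht.eval f hf e m hm, hf]

theorem Op.smul {s : Tri} {d : ℕ} {g : ℕ → R → R} (c : ℤ) (hs : Op P x z s d g) :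
    Op P x z (Tri.smul c s) d (fun e m => c • g e m) where
  mem e m hm := AddSubgroup.zsmul_mem _ (hs.mem e m hm) c
  eval f hf e m hm := by rw [ev_smul, hs.eval f hf e m hm, hf.smul]

theorem Op.mul {s v : Tri} {d d' : ℕ} {g h : ℕ → R → R} (hs : Op P x z s d g) (hv : Op P x z v d' h) :
    Op P x z (Tri.mul v s) (d + d') (fun e m => h (e + d) (g e m)) where
  mem e m hm := by
    have := hv.mem (e + d) (g e m) (hs.mem e m hm)
    rwa [add_assoc] at this
  eval f hf e m hm := by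
    rw [ev_mul, hs.eval _ (ev_addi x z hf v) e m hm, hv.eval f hf _ _ (hs.mem e m hm), add_assoc]

theorem Op.congr {s : Tri} {d d' : ℕ} {g g' : ℕ → R → R} (hs : Op P x z s d g) (hd : d = d')
    (h : ∀ e m, m ∈ P (e % 2) → g e m = g' e m) : Op P x z s d' g' := by
  subst hd
  refine ⟨fun e m hm => ?_, fun f hf e m hm => ?_⟩
  · rw [← h e m hm]; exact hs.mem e m hm
  · rw [← h e m hm]; exact hs.eval f hf e m hm

variable (hP : SuperAlt R P) (hx : x ∈ P 1) (hz : z ∈ P 1)
include hP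

theorem mul_mem' {i j : ℕ} {a b : R} (ha : a ∈ P (i % 2)) (hb : b ∈ P (j % 2)) : a * b ∈ P ((i + j) % 2) := by
  have := hP.mul_mem ha hb
  rwa [← Nat.add_mod] at this

theorem left' {i j k : ℕ} {a b c : R} (ha : a ∈ P (i % 2)) (hb : b ∈ P (j % 2)) (hc : c ∈ P (k % 2)) :
    as a b c = - (((-1 : ℤ) ^ (i * j)) • as b a c) := by
  rw [hP.left (Nat.mod_lt _ two_pos) (Nat.mod_lt _ two_pos) ha hb hc, sign_pow rfl rfl, neg_smul, neg_neg]

theorem right' {i j k : ℕ} {a b c : R} (ha : a ∈ P (i % 2)) (hb : b ∈ P (j % 2)) (hc : c ∈ P (k % 2)) :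
    as a b c = - (((-1 : ℤ) ^ (j * k)) • as a c b) := by
  rw [hP.right (Nat.mod_lt _ two_pos) (Nat.mod_lt _ two_pos) ha hb hc, sign_pow rfl rfl, neg_smul, neg_neg]

theorem Op.rgt (w : R) (hw : w ∈ P 1) {s : Tri} (hs : ∀ (f : ℕ → R → R) e m, ev x z f s e m = f (e + 1) (m * w)) :
    Op P x z s 1 (fun _ m => m * w) where
  mem e m hm := mul_mem' hP hm hw
  eval f _ _ _ _ := hs f _ _

theorem Op.lft (w : R) (hw : w ∈ P 1) {s : Tri} (hs : ∀ (f : ℕ → R → R) e m, ev x z f s e m = f (e + 1) (Lm w e m)) :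
    Op P x z s 1 (fun e m => ((-1 : ℤ) ^ (e * 1)) • (w * m)) where
  mem e m hm := by
    rw [add_comm]
    exact AddSubgroup.zsmul_mem _ (mul_mem' hP (i := 1) hw hm) _
  eval f _ e m _ := by rw [hs f e m, mul_one]; rfl

omit hP in
theorem ev_lx (f : ℕ → R → R) (e : ℕ) (m : R) : ev x z f lx e m = f (e + 1) (m * x) := by
  simp [lx, ev]
omit hP in
theorem ev_ly (f : ℕ → R → R) (e : ℕ) (m : R) : ev x z f ly e m = f (e + 1) (Lm x e m) := by
  simp [ly, ev]
omit hP in
theorem ev_lp (f : ℕ → R → R) (e : ℕ) (m : R) : ev x z f lp e m = f (e + 1) (m * z) := by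
  simp [lp, ev]
omit hP in
theorem ev_lq (f : ℕ → R → R) (e : ℕ) (m : R) : ev x z f lq e m = f (e + 1) (Lm z e m) := by
  simp [lq, ev]

include hx hz

theorem val_mem (t : Tr) : t.val x z ∈ P (t.deg % 2) := by
  induction t with
  | x => exact hx
  | z => exact hz
  | m a b iha ihb => exact mul_mem' hP iha ihb

omit hP hx hz in
/-- the associator operator `m ↦ ± (A, m, B)` -/
theorem Op.A (a b : Tr) (ha : Op P x z (Lp a) a.deg (fun e m => ((-1 : ℤ) ^ (e * a.deg)) • (a.val x z * m)))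
    (hb : Op P x z (Rp b) b.deg (fun _ m => m * b.val x z)) :
    Op P x z (Tri.add (Tri.mul (Rp b) (Lp a)) (Tri.smul (Int.neg (sg a b)) (Tri.mul (Lp a) (Rp b)))) (a.deg + b.deg)
      (fun e m => ((-1 : ℤ) ^ (e * a.deg)) • as (a.val x z) m (b.val x z)) := by
  refine ((ha.mul hb).add (((hb.mul ha).smul (Int.neg (sg a b))).congr (add_comm _ _) (fun _ _ _ => rfl))).congr rfl ?_
  intro e m _
  rw [show Int.neg (sg a b) = -(sg a b) from rfl, sg_eq, add_mul, pow_add, mul_comm b.deg a.deg]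
  obtain h | h := neg_one_pow_eq_or ℤ (a.deg * b.deg) <;> rw [h] <;> unfold as <;>
    simp only [smul_mul_assoc, smul_sub, neg_smul, smul_smul, mul_one, mul_neg, neg_mul, one_smul, neg_neg, one_mul] <;>
    abel

theorem RL_sound (t : Tr) : Op P x z (Rp t) t.deg (fun _ m => m * t.val x z) ∧
    Op P x z (Lp t) t.deg (fun e m => ((-1 : ℤ) ^ (e * t.deg)) • (t.val x z * m)) := by
  induction t with
  | x => exact ⟨Op.rgt hP x hx ev_lx, Op.lft hP x hx ev_ly⟩
  | z => exact ⟨Op.rgt hP z hz ev_lp, Op.lft hP z hz ev_lq⟩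
  | m a b iha ihb =>
    obtain ⟨ra, la⟩ := iha
    obtain ⟨rb, lb⟩ := ihb
    have A := Op.A a b la rb
    have va := val_mem hP hx hz a
    have vb := val_mem hP hx hz b
    constructor
    · rw [Rp_m]
      refine ((ra.mul rb).add A).congr rfl ?_
      intro e m hm
      have h1 := left' hP hm va vb
      show m * a.val x z * b.val x z + ((-1 : ℤ) ^ (e * a.deg)) • as (a.val x z) m (b.val x z) =
        m * (a.val x z * b.val x z)
      have h2 : as m (a.val x z) (b.val x z) = m * a.val x z * b.val x z - m * (a.val x z * b.val x z) := rfl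
      rw [h2] at h1
      rw [sub_eq_iff_eq_add] at h1
      rw [h1]; abel
    · rw [Lp_m]
      refine ((((lb.mul la).smul (sg a b)).congr (add_comm _ _) (fun _ _ _ => rfl)).add (A.smul (Int.negSucc 0))).congr rfl ?_
      intro e m hm
      have h1 := right' hP va vb hm
      show sg a b • ((-1 : ℤ) ^ ((e + b.deg) * a.deg)) • (a.val x z * (((-1 : ℤ) ^ (e * b.deg)) • (b.val x z * m))) +
          (-1 : ℤ) • ((-1 : ℤ) ^ (e * a.deg)) • as (a.val x z) m (b.val x z) =
        ((-1 : ℤ) ^ (e * (a.deg + b.deg))) • ((a.val x z * b.val x z) * m)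
      have h2 : as (a.val x z) (b.val x z) m = a.val x z * b.val x z * m - a.val x z * (b.val x z * m) := rfl
      rw [h2, sub_eq_iff_eq_add] at h1
      rw [h1, sg_eq, add_mul, mul_add, pow_add, pow_add, mul_comm b.deg a.deg, mul_comm b.deg e]
      obtain h | h := neg_one_pow_eq_or ℤ (a.deg * b.deg) <;> obtain h' | h' := neg_one_pow_eq_or ℤ (e * b.deg) <;>
      obtain h'' | h'' := neg_one_pow_eq_or ℤ (e * a.deg) <;> rw [h, h', h''] <;> simp <;> abel

theorem skew_sound (a b : Tr) : Op P x z (skew a b) (a.deg + b.deg) (fun _ _ => 0) := by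
  have A := Op.A a b (RL_sound hP hx hz a).2 (RL_sound hP hx hz b).1
  have B := Op.A b a (RL_sound hP hx hz b).2 (RL_sound hP hx hz a).1
  have hs : sg b a = sg a b := by rw [sg_eq, sg_eq, mul_comm]
  rw [hs] at B
  unfold skew
  refine (A.add ((B.smul (sg a b)).congr (add_comm _ _) (fun _ _ _ => rfl))).congr rfl ?_
  intro e m hm
  have va := val_mem hP hx hz a
  have vb := val_mem hP hx hz b
  have h1 := left' hP va hm vb
  have h2 := right' hP hm va vb
  have h3 := left' hP hm vb va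
  show ((-1 : ℤ) ^ (e * a.deg)) • as (a.val x z) m (b.val x z) +
    sg a b • ((-1 : ℤ) ^ (e * b.deg)) • as (b.val x z) m (a.val x z) = 0
  rw [h1, h2, h3, sg_eq, mul_comm a.deg e]
  obtain h | h := neg_one_pow_eq_or ℤ (a.deg * b.deg) <;> obtain h' | h' := neg_one_pow_eq_or ℤ (e * b.deg) <;>
    obtain h'' | h'' := neg_one_pow_eq_or ℤ (e * a.deg) <;> rw [h, h', h''] <;> simp

end Pool.Agent.Helper928.NucCert
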