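import Pool.Agent.Helper928.NucCert.Cert
set_option autoImplicit false

/-! The operator word of the nuclear element. -/

namespace Pool.Agent.Helper928.NucCert
open Pool.Agent.Helper928.Nuc.Tens Pool.Agent.Helper928.Nuc.NFun

/-- `x * x` -/
def t2 : Tr := .m .x .x
/-- `(x * x) * (x * x)` -/
def t4 : Tr := .m t2 t2

/-- difference -/
noncomputable def sub (s t : Tri) : Tri := Tri.add s (Tri.smul (.negSucc 0) t)

/-- right plus left multiplication -/
noncomputable def RpL (t : Tr) : Tri := Tri.add (Rp t) (Lp t)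
/-- right minus left multiplication -/
noncomputable def RmL (t : Tr) : Tri := sub (Rp t) (Lp t)

/-- `M5 x x x x x y = 8 • y W6` -/
noncomputable def W6 : Tri :=
  Tri.add (Tri.smul (.ofNat 3) (Tri.mul (RmL t4) (sub ly lx)))
    (Tri.add (Tri.mul (sub (Tri.add (RpL (.m .x (.m t2 .x))) (RpL (.m (.m t2 .x) .x)))
        (Tri.add (RpL (.m .x (.m .x t2))) (RpL (.m (.m .x t2) .x)))) (sub ly lx))
      (Tri.smul (.ofNat 2) (Tri.mul (RpL t2) (sub (RmL (.m t2 .x)) (RmL (.m .x t2))))))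

/-- the polynomial of `m ↦ (m, z, z)` -/
noncomputable def Zz : Tri := sub (Tri.mul lp lp) (Rp (.m .z .z))

variable {R : Type} [NonUnitalNonAssocRing R] {P : ℕ → AddSubgroup R} {x z : R}

theorem Op.sub {s t : Tri} {d : ℕ} {g h : ℕ → R → R} (hs : Op P x z s d g) (ht : Op P x z t d h) :
    Op P x z (NucCert.sub s t) d (fun e m => g e m - h e m) :=
  (hs.add (ht.smul (.negSucc 0))).congr rfl (fun e m _ => by
    show g e m + (-1 : ℤ) • h e m = _
    rw [neg_one_zsmul, sub_eq_add_neg])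

variable (hP : SuperAlt R P) (hx : x ∈ P 1) (hz : z ∈ P 1)
include hP hx hz

theorem RpL_sound (t : Tr) : Op P x z (RpL t) t.deg
    (fun e m => m * t.val x z + ((-1 : ℤ) ^ (e * t.deg)) • (t.val x z * m)) :=
  (RL_sound hP hx hz t).1.add (RL_sound hP hx hz t).2

theorem RmL_sound (t : Tr) : Op P x z (RmL t) t.deg
    (fun e m => m * t.val x z - ((-1 : ℤ) ^ (e * t.deg)) • (t.val x z * m)) :=
  (RL_sound hP hx hz t).1.sub (RL_sound hP hx hz t).2

theorem Zz_sound : Op P x z Zz 2 (fun _ m => as m z z) := by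
  have h1 : Op P x z lp 1 (fun _ m => m * z) := (RL_sound hP hx hz .z).1
  exact ((h1.mul h1).sub (RL_sound hP hx hz (.m .z .z)).1).congr rfl (fun e m _ => rfl)

theorem W6_sound : ∃ g : ℕ → R → R, Op P x z W6 5 g ∧ ∀ y, M5 x x x x x y = (8 : ℤ) • g 0 y := by
  have hr : Op P x z lx 1 (fun _ m => m * x) := (RL_sound hP hx hz .x).1
  have hl : Op P x z ly 1 (fun e m => ((-1 : ℤ) ^ (e * 1)) • (x * m)) := (RL_sound hP hx hz .x).2
  have hw := hl.sub hr
  have hS := (hw.mul (RmL_sound hP hx hz t4)).smul (.ofNat 3)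
  have hV := hw.mul (((RpL_sound hP hx hz (.m .x (.m t2 .x))).add (RpL_sound hP hx hz (.m (.m t2 .x) .x))).sub
    ((RpL_sound hP hx hz (.m .x (.m .x t2))).add (RpL_sound hP hx hz (.m (.m .x t2) .x))))
  have hT := (((RmL_sound hP hx hz (.m t2 .x)).sub (RmL_sound hP hx hz (.m .x t2))).mul
    (RpL_sound hP hx hz t2)).smul (.ofNat 2)
  have h := hS.add (hV.add (hT.congr (d' := 5) rfl (fun _ _ _ => rfl)))
  refine ⟨_, h, fun y => ?_⟩
  simp only [Tr.deg, Tr.val, t2, t4, M5, br, jo, as]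
  simp only [Int.ofNat_eq_natCast, Nat.cast_ofNat]
  norm_num
  simp only [mul_add, add_mul, mul_sub, sub_mul, smul_add, smul_sub, mul_neg, neg_mul, smul_neg, smul_smul]
  abel

end Pool.Agent.Helper928.NucCert
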