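import Pool.Agent.Helper928.Nuc.NFun
set_option autoImplicit false

/-!
Operator words in super-alternative rings.

For a super-alternative ring `R` and two odd elements `x`, `z` we look at polynomials in four
non-commuting letters: right multiplication by `x`, twisted left multiplication by `x`
(`m ↦ (-1)^e • (x * m)` on elements of parity `e`), and the same for `z`.  A polynomial is stored
as a quaternary tree `Tri`.  Every monomial `T` in `x, z` (a `Tr`) acts by right and twisted left
multiplication; `Rp T` and `Lp T` are the corresponding polynomials in the letters; `skew T S`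
is a polynomial that acts as zero by super-alternativity.
-/

namespace Pool.Agent.Helper928.NucCert
open Pool.Agent.Helper928.Nuc.Tens Pool.Agent.Helper928.Nuc.NFun

/-- polynomials in four non-commuting letters: coefficient of the empty word, and the four
polynomials following each first letter -/
inductive Tri
  | nil : Tri
  | node : ℤ → Tri → Tri → Tri → Tri → Tri

namespace Tri

/-- sum -/
noncomputable def add (s : Tri) : Tri → Tri :=
  Tri.rec (motive := fun _ => Tri → Tri) (fun t => t)
    (fun k a b c d iha ihb ihc ihd t =>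
      Tri.casesOn (motive := fun _ => Tri) t (node k a b c d)
        (fun k' a' b' c' d' => node (Int.add k k') (iha a') (ihb b') (ihc c') (ihd d'))) s

theorem nil_add (t : Tri) : add nil t = t := rfl
theorem node_add_nil (k : ℤ) (a b c d : Tri) : add (node k a b c d) nil = node k a b c d := rfl
theorem node_add_node (k : ℤ) (a b c d : Tri) (k' : ℤ) (a' b' c' d' : Tri) :
    add (node k a b c d) (node k' a' b' c' d') =
      node (k + k') (add a a') (add b b') (add c c') (add d d') := rfl

/-- multiplication by an integer -/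
noncomputable def smul (z : ℤ) (s : Tri) : Tri :=
  Tri.rec (motive := fun _ => Tri) nil
    (fun k _ _ _ _ iha ihb ihc ihd => node (Int.mul z k) iha ihb ihc ihd) s

theorem smul_nil (z : ℤ) : smul z nil = nil := rfl
theorem smul_node (z k : ℤ) (a b c d : Tri) :
    smul z (node k a b c d) = node (z * k) (smul z a) (smul z b) (smul z c) (smul z d) := rfl

/-- is this integer `0`? -/
def isz : ℤ → Bool
  | .ofNat n => Nat.beq n 0
  | .negSucc _ => false

theorem isz_eq {k : ℤ} (h : isz k = true) : k = 0 := by
  cases k with
  | ofNat n =>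
    simp only [isz] at h
    have := Nat.eq_of_beq_eq_true h
    subst this; rfl
  | negSucc n => simp [isz] at h

/-- `mul v s` is the product `s * v` -/
noncomputable def mul (v s : Tri) : Tri :=
  Tri.rec (motive := fun _ => Tri) nil
    (fun k _ _ _ _ iha ihb ihc ihd =>
      Bool.rec (motive := fun _ => Tri) (add (smul k v) (node (.ofNat 0) iha ihb ihc ihd))
        (node (.ofNat 0) iha ihb ihc ihd) (isz k)) s

theorem mul_nil (v : Tri) : mul v nil = nil := rfl
theorem mul_node (v : Tri) (k : ℤ) (a b c d : Tri) :
    mul v (node k a b c d) =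
      Bool.rec (motive := fun _ => Tri) (add (smul k v) (node 0 (mul v a) (mul v b) (mul v c) (mul v d)))
        (node 0 (mul v a) (mul v b) (mul v c) (mul v d)) (isz k) := rfl

/-- is this the zero polynomial? -/
noncomputable def isZ (s : Tri) : Bool :=
  Tri.rec (motive := fun _ => Bool) true
    (fun k _ _ _ _ iha ihb ihc ihd => isz k && (iha && (ihb && (ihc && ihd)))) s

theorem isZ_node (k : ℤ) (a b c d : Tri) :
    isZ (node k a b c d) = (isz k && (isZ a && (isZ b && (isZ c && isZ d)))) := rfl

end Tri
open Tri

section eval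
variable {R : Type} [NonUnitalNonAssocRing R]

/-- twisted left multiplication -/
def Lm (x : R) (e : ℕ) (m : R) : R := ((-1 : ℤ) ^ e) • (x * m)

/-- evaluation of a polynomial at `m` (of parity `e`), followed by `f` -/
noncomputable def ev (x z : R) (f : ℕ → R → R) : Tri → ℕ → R → R
  | nil, _, _ => 0
  | node k a b c d, e, m =>
    k • f e m + ev x z f a (e + 1) (m * x) + ev x z f b (e + 1) (Lm x e m) +
      ev x z f c (e + 1) (m * z) + ev x z f d (e + 1) (Lm z e m)

variable (x z : R) (f : ℕ → R → R)

theorem ev_add (s : Tri) : ∀ (t : Tri) (e : ℕ) (m : R), ev x z f (add s t) e m = ev x z f s e m + ev x z f t e m := by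
  induction s with
  | nil => intro t e m; rw [nil_add, ev, zero_add]
  | node k a b c d iha ihb ihc ihd =>
    intro t e m
    cases t with
    | nil => rw [node_add_nil, ev, ev, add_zero]
    | node k' a' b' c' d' =>
      rw [node_add_node]
      simp only [ev, iha, ihb, ihc, ihd, add_smul]
      abel

theorem ev_smul (c : ℤ) (s : Tri) : ∀ (e : ℕ) (m : R), ev x z f (smul c s) e m = c • ev x z f s e m := by
  induction s with
  | nil => intro e m; rw [smul_nil, ev, smul_zero]
  | node k a b c' d iha ihb ihc ihd =>
    intro e m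
    rw [smul_node]
    simp only [ev, iha, ihb, ihc, ihd, smul_add, mul_smul]

theorem ev_mul (v s : Tri) : ∀ (e : ℕ) (m : R), ev x z f (mul v s) e m = ev x z (fun e' m' => ev x z f v e' m') s e m := by
  induction s with
  | nil => intro e m; rw [mul_nil, ev, ev]
  | node k a b c d iha ihb ihc ihd =>
    intro e m
    rw [mul_node]
    cases hk : isz k with
    | false =>
      simp only [ev_add, ev_smul, ev, iha, ihb, ihc, ihd, zero_smul, zero_add]
      abel
    | true =>
      have := isz_eq hk
      subst this
      simp only [ev, iha, ihb, ihc, ihd, zero_smul, zero_add]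

theorem ev_isZ (s : Tri) : isZ s = true → ∀ (e : ℕ) (m : R), ev x z f s e m = 0 := by
  induction s with
  | nil => intro _ e m; rw [ev]
  | node k a b c d iha ihb ihc ihd =>
    intro h e m
    rw [isZ_node] at h
    simp only [Bool.and_eq_true] at h
    obtain ⟨hk, ha, hb, hc, hd⟩ := h
    rw [ev, iha ha, ihb hb, ihc hc, ihd hd, isz_eq hk]
    simp

/-- a family of additive maps -/
def Addi (f : ℕ → R → R) : Prop := ∀ e a b, f e (a + b) = f e a + f e b

variable {f}

theorem Addi.zero (hf : Addi f) (e : ℕ) : f e 0 = 0 := by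
  have := hf e 0 0
  rw [add_zero] at this
  exact left_eq_add.mp this

theorem Addi.smul (hf : Addi f) (e : ℕ) (c : ℤ) (a : R) : f e (c • a) = c • f e a :=
  map_zsmul (AddMonoidHom.mk' (f e) (hf e)) c a

theorem ev_addi (hf : Addi f) (s : Tri) : Addi (fun e m => ev x z f s e m) := by
  induction s with
  | nil => intro e a b; simp only [ev, add_zero]
  | node k a b c d iha ihb ihc ihd =>
    intro e m m'
    have h1 := iha (e + 1) (m * x) (m' * x)
    have h2 := ihb (e + 1) (Lm x e m) (Lm x e m')
    have h3 := ihc (e + 1) (m * z) (m' * z)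
    have h4 := ihd (e + 1) (Lm z e m) (Lm z e m')
    simp only at h1 h2 h3 h4
    have e1 : Lm x e (m + m') = Lm x e m + Lm x e m' := by unfold Lm; rw [mul_add, smul_add]
    have e2 : Lm z e (m + m') = Lm z e m + Lm z e m' := by unfold Lm; rw [mul_add, smul_add]
    simp only [ev]
    rw [e1, e2, add_mul, add_mul, h1, h2, h3, h4, hf, smul_add]
    abel

end eval

/-- non-associative monomials in two letters -/
inductive Tr
  | x : Tr
  | z : Tr
  | m : Tr → Tr → Tr

namespace Tr
/-- degree -/
def deg : Tr → ℕ
  | x => 1
  | z => 1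
  | m a b => a.deg + b.deg

/-- degree modulo `2`: is it odd? -/
def odd : Tr → Bool
  | x => true
  | z => true
  | m a b => Bool.xor a.odd b.odd

/-- value -/
def val {R : Type} [NonUnitalNonAssocRing R] (u v : R) : Tr → R
  | x => u
  | z => v
  | m a b => a.val u v * b.val u v
end Tr

/-- the sign of two monomials -/
def sg (a b : Tr) : ℤ := Bool.rec (Int.ofNat 1) (Int.negSucc 0) (and a.odd b.odd)

theorem odd_iff (a : Tr) : a.odd = true ↔ Odd a.deg := by
  induction a with
  | x => simp [Tr.odd, Tr.deg]
  | z => simp [Tr.odd, Tr.deg]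
  | m a b iha ihb =>
    rw [Tr.odd, Tr.deg, Nat.odd_add, ← iha, ← Nat.not_odd_iff_even, ← ihb]
    cases a.odd <;> cases b.odd <;> simp

theorem sg_eq (a b : Tr) : sg a b = (-1) ^ (a.deg * b.deg) := by
  have h : (a.odd && b.odd) = true ↔ Odd (a.deg * b.deg) := by
    rw [Bool.and_eq_true, odd_iff, odd_iff, Nat.odd_mul]
  by_cases h1 : (a.odd && b.odd) = true
  · rw [(h.mp h1).neg_one_pow]
    unfold sg
    rw [h1]; rfl
  · have := mt h.mpr h1
    rw [Nat.not_odd_iff_even] at this
    rw [this.neg_one_pow]
    unfold sg
    rw [Bool.eq_false_iff.mpr h1]; rfl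

/-- the four letters -/
def lx : Tri := .node (.ofNat 0) (.node (.ofNat 1) .nil .nil .nil .nil) .nil .nil .nil
def ly : Tri := .node (.ofNat 0) .nil (.node (.ofNat 1) .nil .nil .nil .nil) .nil .nil
def lp : Tri := .node (.ofNat 0) .nil .nil (.node (.ofNat 1) .nil .nil .nil .nil) .nil
def lq : Tri := .node (.ofNat 0) .nil .nil .nil (.node (.ofNat 1) .nil .nil .nil .nil)

/-- the polynomials of right and twisted left multiplication by a monomial -/
noncomputable def RL (t : Tr) : Tri × Tri :=
  Tr.rec (motive := fun _ => Tri × Tri) (lx, ly) (lp, lq)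
    (fun a b iha ihb =>
      (add (mul ihb.1 iha.1) (add (mul ihb.1 iha.2) (smul (Int.neg (sg a b)) (mul iha.2 ihb.1))),
       add (smul (sg a b) (mul iha.2 ihb.2))
        (smul (.negSucc 0) (add (mul ihb.1 iha.2) (smul (Int.neg (sg a b)) (mul iha.2 ihb.1)))))) t

/-- right multiplication by a monomial -/
noncomputable def Rp (t : Tr) : Tri := (RL t).1
/-- twisted left multiplication by a monomial -/
noncomputable def Lp (t : Tr) : Tri := (RL t).2

theorem Rp_m (a b : Tr) : Rp (a.m b) = add (mul (Rp b) (Rp a))
    (add (mul (Rp b) (Lp a)) (smul (Int.neg (sg a b)) (mul (Lp a) (Rp b)))) := rfl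
theorem Lp_m (a b : Tr) : Lp (a.m b) = add (smul (sg a b) (mul (Lp a) (Lp b)))
    (smul (.negSucc 0) (add (mul (Rp b) (Lp a)) (smul (Int.neg (sg a b)) (mul (Lp a) (Rp b))))) := rfl

/-- the skew-symmetry relation -/
noncomputable def skew (a b : Tr) : Tri :=
  add (add (mul (Rp b) (Lp a)) (smul (Int.neg (sg a b)) (mul (Lp a) (Rp b))))
    (smul (sg a b) (add (mul (Rp a) (Lp b)) (smul (Int.neg (sg a b)) (mul (Lp b) (Rp a)))))

end Pool.Agent.Helper928.NucCert
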